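import Pool.Agent.helper94.SP.Count

/-!
# Renormalised spectra of Pisot numbers become dense at the golden ratio
-/

namespace Pool.Agent.Results.MP_d3c691_an.GoldenLimitDense

open Filter Topology Pool.Agent.helper94.SP

/-- Gaps of the renormalised spectra near the golden ratio. -/
theorem result :
    (∀ β : ℝ, 2 ≤ β ^ 2 → 0 < β → β < 2 → β ≠ (1 + Real.sqrt 5) / 2 →
      ∀ s t : ℝ, -1 ≤ s → t ≤ 1 → ∀ k : ℕ,
        (2 * k + 1) * (2 * |β ^ 2 - β - 1| * (2 * β - 1)) ≤ t - s →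
        ((k + 1 : ℕ) : ℕ∞) ≤ (Y β ∩ Set.Icc s t).encard) ∧
    (∀ β : ℕ → ℝ, (∀ n, IsPisot (β n)) → StrictMono (fun n => deg (β n)) →
      Tendsto β atTop (𝓝 ((1 + Real.sqrt 5) / 2)) →
      ∀ s t : ℝ, -1 ≤ s → s < t → t ≤ 1 → ∀ k : ℕ,
        ∀ᶠ n in atTop, (k : ℕ∞) ≤ (Y (β n) ∩ Set.Ioo s t).encard) := by
  refine ⟨?_, ?_⟩
  · intro β h2 h0 h3 hne s t hs ht k hk
    have h1 : 1 < β := by nlinarith
    exact count β h1 h2 h3 (fun h => hne (golden_of_zero h0 h)) s t hs ht k hk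
  · intro β _ hmono hlim s t hs hst ht k
    refine seq_count β ?_ hlim s t hs hst ht k
    by_cases hex : ∃ m, β m = (1 + Real.sqrt 5) / 2
    · obtain ⟨m, hm⟩ := hex
      filter_upwards [eventually_gt_atTop m] with n hn heq
      have hlt : deg (β m) < deg (β n) := hmono hn
      rw [hm, heq] at hlt
      exact lt_irrefl _ hlt
    · push Not at hex
      exact Eventually.of_forall hex

end Pool.Agent.Results.MP_d3c691_an.GoldenLimitDense
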