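import Pool.Agent.helper32.ZO.Extra

/-!
# A zero-one law for the limits of the renormalised spectra of Pisot numbers

`Y β` is the renormalised piece of the spectrum of `β` with digits `-1, 0, 1`
(`Pool.Agent.helper94.SP`), `avg β f` is the integral of `f` with respect to the uniform
probability measure on the finite set `Y β`.
-/

set_option autoImplicit false

namespace Pool.Agent.Results.MP_d3c691_an.ZeroOneLaw

open MeasureTheory Filter Topology Pool.Agent.helper94.SP Pool.Agent.helper32.ZO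

/-- Let `β n` be Pisot numbers in `[c, 2 - ε]`, `1 < c`, `0 < ε`.  Every Hausdorff limit of the
sets `Y (β n)` is `[-1, 1]` or a Lebesgue null set.  Every weak-* limit `μ` of the uniform
probability measures on `Y (β n)` is singular, or charges every Borel subset of `[-1, 1]` of
positive Lebesgue measure; and `μ` is carried by `{-1, 1}`, or charges every open interval in
`[-1, 1]` longer than `1 - ε`. -/
theorem result (c ε : ℝ) (hc : 1 < c) (hε : 0 < ε) (β : ℕ → ℝ) (hP : ∀ n, IsPisot (β n))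
    (hβ : ∀ n, c ≤ β n ∧ β n ≤ 2 - ε) :
    (∀ n, (Y (β n)).Finite) ∧
    (∀ E : Set ℝ, IsClosed E →
      Tendsto (fun n => Metric.hausdorffEDist (Y (β n)) E) atTop (𝓝 0) →
      E = Set.Icc (-1) 1 ∨ volume E = 0) ∧
    (∀ μ : Measure ℝ, IsProbabilityMeasure μ → μ (Set.Icc (-1) 1)ᶜ = 0 →
      (∀ f : ℝ → ℝ, Continuous f →
        Tendsto (fun n => avg (β n) f) atTop (𝓝 (∫ x, f x ∂μ))) →
      (μ ⟂ₘ volume ∨
        ∀ E : Set ℝ, E ⊆ Set.Icc (-1) 1 → MeasurableSet E → 0 < volume E → 0 < μ E) ∧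
      (μ (Set.Ioo (-1) 1) = 0 ∨
        ∀ s t : ℝ, -1 ≤ s → t ≤ 1 → 1 - ε < t - s → 0 < μ (Set.Ioo s t))) := by
  have hfin : ∀ n, (Y (β n)).Finite := fun n => Y_finite (hP n)
  obtain ⟨α, hα, ψ, hψ, hlim⟩ := (isCompact_Icc (a := c) (b := 2 - ε)).tendsto_subseq
    (fun n => (⟨(hβ n).1, (hβ n).2⟩ : β n ∈ Set.Icc c (2 - ε)))
  have hα1 : 1 < α := lt_of_lt_of_le hc hα.1
  have hα2 : α ≤ 2 := by have := hα.2; linarith
  have hβ1 : ∀ n, 1 < (β ∘ ψ) n := fun n => (hP (ψ n)).1
  have hfin' : ∀ n, (Y ((β ∘ ψ) n)).Finite := fun n => hfin (ψ n)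
  refine ⟨hfin, ?_, ?_⟩
  · intro E hEc hE
    by_cases h0 : volume E = 0
    · exact Or.inr h0
    · exact Or.inl (set_law hα1 hα2 hβ1 hlim E hEc (hE.comp hψ.tendsto_atTop) h0)
  · intro μ hμp hμ1 hμ
    haveI := hμp
    have hμ' : ∀ f : ℝ → ℝ, Continuous f →
        Tendsto (fun n => avg ((β ∘ ψ) n) f) atTop (𝓝 (∫ x, f x ∂μ)) :=
      fun f hf => (hμ f hf).comp hψ.tendsto_atTop
    refine ⟨?_, ?_⟩
    · by_cases hs : μ ⟂ₘ volume
      · exact Or.inl hs
      · right
        intro E hE hEm hE0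
        exact pos_iff_ne_zero.mpr
          (measure_law hα1 hα2 hβ1 hfin' hlim μ hμ1 hμ' hs E hE hEm hE0.ne')
    · by_cases h0 : μ (Set.Ioo (-1) 1) = 0
      · exact Or.inl h0
      · right
        intro s t hs ht hst
        refine pos_iff_ne_zero.mpr
          (open_law hα1 hα2 hβ1 hfin' hlim μ hμ' h0 s t hs ht ?_)
        have := hα.2
        linarith

end Pool.Agent.Results.MP_d3c691_an.ZeroOneLaw
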